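import Mathlib
import Pool.Agent.H84R8.Bump

/-!
# MP_f4dda6_al: a non-confined subgroup of Thompson's group `F` whose Schreier graph has no copies
of Cayley balls at linear distance from the root
-/

set_option autoImplicit false

namespace Pool.Agent.Results.MP_f4dda6_al.NoLinearCopies

open Pool.Agent.H476R3.ThF Pool.Agent.H84R8

section schreier

variable {G : Type} [Group G]

/-- The right cosets of `H`. -/
abbrev Coset (H : Subgroup G) : Type := Quotient (QuotientGroup.rightRel H)

/-- The coset `H g`. -/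
def coset (H : Subgroup G) (g : G) : Coset H := Quotient.mk (QuotientGroup.rightRel H) g

/-- The root of the Schreier graph: the coset `H`. -/
def root (H : Subgroup G) : Coset H := coset H 1

/-- Right multiplication of a coset by a group element: `H g ↦ H g s`. -/
def step (H : Subgroup G) (v : Coset H) (s : G) : Coset H :=
  Quotient.map (fun g => g * s) (by
    intro a b hab
    have h1 : (QuotientGroup.rightRel H) a b := hab
    have h2 : (QuotientGroup.rightRel H) (a * s) (b * s) := by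
      rw [QuotientGroup.rightRel_apply] at h1 ⊢
      have e : b * s * (a * s)⁻¹ = b * a⁻¹ := by group
      rw [e]; exact h1
    exact h2) v

/-- The Schreier graph, forgetting orientations and labels: `v` and `w` are adjacent when they are
distinct and one is obtained from the other by right multiplication by an element of `S`. -/
def schreierGraph (H : Subgroup G) (S : Finset G) : SimpleGraph (Coset H) :=
  SimpleGraph.fromRel (fun v w => ∃ s ∈ S, step H v s = w)

/-- The ball of radius `n` about `v` in the Schreier graph. -/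
def ball (H : Subgroup G) (S : Finset G) (v : Coset H) (n : ℕ) : Set (Coset H) :=
  {w | ∃ p : (schreierGraph H S).Walk v w, p.length ≤ n}

theorem self_mem_ball (H : Subgroup G) (S : Finset G) (v : Coset H) (n : ℕ) : v ∈ ball H S v n :=
  ⟨SimpleGraph.Walk.nil, Nat.zero_le n⟩

/-- The ball of radius `n` about `v` in the Schreier graph of `H` is isomorphic, as a rooted
labelled graph, to the ball of radius `n` about the identity in the Cayley graph, that is, in the
Schreier graph of the trivial subgroup. -/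
def IsCayleyBall (H : Subgroup G) (S : Finset G) (v : Coset H) (n : ℕ) : Prop :=
  ∃ φ : ball H S v n ≃ ball (⊥ : Subgroup G) S (root ⊥) n,
    φ ⟨v, self_mem_ball H S v n⟩ = ⟨root ⊥, self_mem_ball ⊥ S (root ⊥) n⟩ ∧
    ∀ x y : ball H S v n, ∀ s ∈ S,
      step H (x : Coset H) s = (y : Coset H) ↔
        step ⊥ (φ x : Coset (⊥ : Subgroup G)) s = (φ y : Coset (⊥ : Subgroup G))

/-- `H` is non-confined: no finite set of nontrivial elements meets all conjugates of `H`. -/
def NonConfined (H : Subgroup G) : Prop :=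
  ∀ P : Finset G, (1 : G) ∉ P → ∃ g : G, ∀ p ∈ P, g⁻¹ * p * g ∉ H

theorem step_coset (H : Subgroup G) (g s : G) : step H (coset H g) s = coset H (g * s) := rfl

theorem coset_surj (H : Subgroup G) (v : Coset H) : ∃ g, v = coset H g := by
  induction v using Quotient.inductionOn with
  | h g => exact ⟨g, rfl⟩

theorem step_mul (H : Subgroup G) (v : Coset H) (s t : G) :
    step H (step H v s) t = step H v (s * t) := by
  obtain ⟨g, rfl⟩ := coset_surj H v
  rw [step_coset, step_coset, step_coset, mul_assoc]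

theorem step_one (H : Subgroup G) (v : Coset H) : step H v 1 = v := by
  obtain ⟨g, rfl⟩ := coset_surj H v
  rw [step_coset, mul_one]

theorem coset_eq (H : Subgroup G) {g g' : G} : coset H g = coset H g' ↔ g' * g⁻¹ ∈ H := by
  unfold coset
  rw [Quotient.eq]
  exact QuotientGroup.rightRel_apply

/-- Letters. -/
def Lt (S : Finset G) (a : G) : Prop := a ∈ S ∨ a⁻¹ ∈ S

theorem walk_list (H : Subgroup G) (S : Finset G) {v w : Coset H}
    (p : (schreierGraph H S).Walk v w) :
    ∃ l : List G, l.length = p.length ∧ (∀ a ∈ l, Lt S a) ∧ w = step H v l.prod := by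
  induction p with
  | nil => exact ⟨[], rfl, by simp, by simp [step_one]⟩
  | @cons u v w h p ih =>
    obtain ⟨l, hl, hlt, rfl⟩ := ih
    have h' : u ≠ v ∧ ((∃ s ∈ S, step H u s = v) ∨ (∃ s ∈ S, step H v s = u)) := h
    rcases h'.2 with ⟨s, hs, hsv⟩ | ⟨s, hs, hsv⟩
    · refine ⟨s :: l, by simp [hl], ?_, ?_⟩
      · intro a ha
        rcases List.mem_cons.1 ha with rfl | ha
        · exact Or.inl hs
        · exact hlt a ha
      · rw [List.prod_cons, ← step_mul, hsv]
    · refine ⟨s⁻¹ :: l, by simp [hl], ?_, ?_⟩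
      · intro a ha
        rcases List.mem_cons.1 ha with rfl | ha
        · exact Or.inr (by rwa [inv_inv])
        · exact hlt a ha
      · rw [List.prod_cons, ← hsv, step_mul, mul_inv_cancel_left]

theorem step_ball (H : Subgroup G) (S : Finset G) {v w : Coset H} {n : ℕ} (hw : w ∈ ball H S v n)
    {a : G} (ha : Lt S a) : step H w a ∈ ball H S v (n + 1) := by
  obtain ⟨p, hp⟩ := hw
  by_cases heq : w = step H w a
  · rw [← heq]
    exact ⟨p, by omega⟩
  · have hadj : (schreierGraph H S).Adj w (step H w a) := by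
      refine ⟨heq, ?_⟩
      rcases ha with ha | ha
      · exact Or.inl ⟨a, ha, rfl⟩
      · exact Or.inr ⟨a⁻¹, ha, by rw [step_mul, mul_inv_cancel, step_one]⟩
    refine ⟨p.concat hadj, ?_⟩
    rw [SimpleGraph.Walk.length_concat]
    omega

/-- A short word fixing the centre of a copy of a Cayley ball is trivial. -/
theorem copy_free (H : Subgroup G) (S : Finset G) {v : Coset H} {n : ℕ}
    (hc : IsCayleyBall H S v n) {l : List G} (hl : l.length ≤ n) (hlt : ∀ a ∈ l, Lt S a)
    (hv : step H v l.prod = v) : l.prod = 1 := by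
  obtain ⟨φ, hφv, hφ⟩ := hc
  have key : ∀ l : List G, l.length ≤ n → (∀ a ∈ l, Lt S a) →
      step H v l.prod ∈ ball H S v l.length ∧
      ∀ h : step H v l.prod ∈ ball H S v n,
        ((φ ⟨step H v l.prod, h⟩ : ball (⊥ : Subgroup G) S (root ⊥) n) : Coset (⊥ : Subgroup G)) =
          coset ⊥ l.prod := by
    intro l
    induction l using List.reverseRecOn with
    | nil =>
      intro _ _
      refine ⟨by simpa [step_one] using self_mem_ball H S v 0, ?_⟩
      intro h
      have e : (⟨step H v (List.prod []), h⟩ : ball H S v n) = ⟨v, self_mem_ball H S v n⟩ :=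
        Subtype.ext (by simp [step_one])
      rw [e, hφv]
      rfl
    | append_singleton l a ih =>
      intro hlen hlt
      rw [List.length_append, List.length_singleton] at hlen
      obtain ⟨ih1, ih2⟩ := ih (by omega) (fun b hb => hlt b (List.mem_append_left _ hb))
      have ha : Lt S a := hlt a (by simp)
      have hprod : (l ++ [a]).prod = l.prod * a := by simp
      have hstep : step H v (l ++ [a]).prod = step H (step H v l.prod) a := by
        rw [hprod, step_mul]
      refine ⟨?_, ?_⟩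
      · rw [hstep, List.length_append, List.length_singleton]
        exact step_ball H S ih1 ha
      · intro h
        have hin : step H v l.prod ∈ ball H S v n := by
          obtain ⟨p, hp⟩ := ih1
          exact ⟨p, by omega⟩
        have h1 := ih2 hin
        rcases ha with ha | ha
        · have h2 := (hφ ⟨step H v l.prod, hin⟩ ⟨step H v (l ++ [a]).prod, h⟩ a ha).1 hstep.symm
          rw [← h2, h1, step_coset, hprod]
        · have h2 := (hφ ⟨step H v (l ++ [a]).prod, h⟩ ⟨step H v l.prod, hin⟩ a⁻¹ ha).1 (by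
            change step H (step H v (l ++ [a]).prod) a⁻¹ = step H v l.prod
            rw [hstep, step_mul, mul_inv_cancel, step_one])
          rw [h1] at h2
          have h3 := congrArg (fun w => step ⊥ w a) h2
          simp only [step_mul, inv_mul_cancel, step_one, step_coset] at h3
          rw [h3, hprod]
  obtain ⟨_, h2⟩ := key l hl hlt
  have hin : step H v l.prod ∈ ball H S v n := by rw [hv]; exact self_mem_ball H S v n
  have h3 := h2 hin
  have e : (⟨step H v l.prod, hin⟩ : ball H S v n) = ⟨v, self_mem_ball H S v n⟩ :=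
    Subtype.ext hv
  rw [e, hφv] at h3
  have h4 : coset (⊥ : Subgroup G) 1 = coset ⊥ l.prod := h3
  rw [coset_eq, inv_one, mul_one, Subgroup.mem_bot] at h4
  exact h4

/-- Words for elements. -/
theorem exists_word {S : Finset G} (hS : Subgroup.closure (S : Set G) = ⊤) (g : G) :
    ∃ l : List G, (∀ a ∈ l, Lt S a) ∧ l.prod = g := by
  have hg : g ∈ Subgroup.closure (S : Set G) := by rw [hS]; trivial
  rw [← Subgroup.mem_toSubmonoid, Subgroup.closure_toSubmonoid] at hg
  obtain ⟨l, hl, hp⟩ := Submonoid.exists_list_of_mem_closure hg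
  exact ⟨l, fun a ha => (hl a ha).imp id id, hp⟩

theorem inv_word {S : Finset G} {l : List G} (hl : ∀ a ∈ l, Lt S a) :
    ∃ l' : List G, l'.length = l.length ∧ (∀ a ∈ l', Lt S a) ∧ l'.prod = l.prod⁻¹ := by
  refine ⟨(l.map (fun a => a⁻¹)).reverse, by simp, ?_, ?_⟩
  · intro a ha
    rw [List.mem_reverse, List.mem_map] at ha
    obtain ⟨b, hb, rfl⟩ := ha
    rcases hl b hb with h | h
    · exact Or.inr (by rwa [inv_inv])
    · exact Or.inl h
  · rw [List.prod_inv_reverse]

theorem pow_word {S : Finset G} {l : List G} (hl : ∀ a ∈ l, Lt S a) (k : ℕ) :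
    ∃ l' : List G, l'.length = k * l.length ∧ (∀ a ∈ l', Lt S a) ∧ l'.prod = l.prod ^ k := by
  induction k with
  | zero => exact ⟨[], by simp, by simp, by simp⟩
  | succ k ih =>
    obtain ⟨l', h1, h2, h3⟩ := ih
    refine ⟨l' ++ l, ?_, ?_, ?_⟩
    · rw [List.length_append, h1]; ring
    · intro a ha
      rcases List.mem_append.1 ha with h | h
      · exact h2 a h
      · exact hl a h
    · rw [List.prod_append, h3, pow_succ]

end schreier

section thompson

/-- Thompson's group `F`. -/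
abbrev F : Type := ThompsonF

theorem mul_app (f g : F) (x : UI) : (f * g).1 x = f.1 (g.1 x) := rfl

theorem inv_app (f : F) (x : UI) : (f⁻¹).1 (f.1 x) = x := f.1.symm_apply_apply x

theorem app_inv (f : F) (x : UI) : f.1 ((f⁻¹).1 x) = x := f.1.apply_symm_apply x

/-- The points `2 ^ (-(i+1)^2)`. -/
noncomputable def pt (i : ℕ) : UI :=
  ⟨(1 / 2) ^ ((i + 1) ^ 2), by positivity, pow_le_one₀ (by norm_num) (by norm_num)⟩

/-- The stabilizer of the points `2 ^ (-(i+1)^2)`. -/
def H : Subgroup F where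
  carrier := {f | ∀ i, f.1 (pt i) = pt i}
  mul_mem' := by
    intro f g hf hg i
    rw [mul_app, hg i, hf i]
  one_mem' := fun i => rfl
  inv_mem' := by
    intro f hf i
    have := inv_app f (pt i)
    rwa [hf i] at this

theorem mem_H {f : F} : f ∈ H ↔ ∀ i, f.1 (pt i) = pt i := Iff.rfl

/-- Elements of `F` are Lipschitz at the origin. -/
theorem exists_lip (f : F) : ∃ C : ℕ, ∀ x : UI, (f.1 x : ℝ) ≤ 2 ^ C * (x : ℝ) := by
  obtain ⟨B, -, hB⟩ := f.2
  classical
  obtain ⟨d, hd0, hd1, hdB⟩ : ∃ d : ℝ, 0 < d ∧ d ≤ 1 ∧ ∀ b ∈ B, ¬ (0 < b ∧ b < d) := by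
    clear hB
    induction B using Finset.induction_on with
    | empty => exact ⟨1, one_pos, le_rfl, by simp⟩
    | insert a s _ ih =>
      obtain ⟨d, h0, h1, h2⟩ := ih
      by_cases ha : 0 < a
      · refine ⟨min a d, lt_min ha h0, (min_le_right _ _).trans h1, ?_⟩
        rintro b hb ⟨hb0, hb1⟩
        rcases Finset.mem_insert.1 hb with rfl | hb
        · exact absurd hb1 (not_lt.2 (min_le_left _ _))
        · exact h2 b hb ⟨hb0, lt_of_lt_of_le hb1 (min_le_right _ _)⟩
      · refine ⟨d, h0, h1, ?_⟩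
        rintro b hb ⟨hb0, hb1⟩
        rcases Finset.mem_insert.1 hb with rfl | hb
        · exact ha hb0
        · exact h2 b hb ⟨hb0, hb1⟩
  obtain ⟨k, hk⟩ := hB ⟨0, by simp⟩ ⟨d, hd0.le, hd1⟩ (by
    change (0 : ℝ) < d
    exact hd0) hdB
  have hf0 : (f.1 ⟨0, by simp⟩ : ℝ) = 0 := by rw [map_zero']
  obtain ⟨m, hm⟩ := pow_unbounded_of_one_lt (1 / d) (show (1 : ℝ) < 2 by norm_num)
  refine ⟨max k.toNat m, fun x => ?_⟩
  have hx0 : (0 : ℝ) ≤ x := x.2.1
  have hx1 : (x : ℝ) ≤ 1 := x.2.2
  rcases le_or_gt (x : ℝ) d with hxd | hxd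
  · have h1 := hk x hx0 hxd
    rw [hf0, zero_add] at h1
    rw [h1]
    change (2 : ℝ) ^ k * ((x : ℝ) - 0) ≤ _
    rw [sub_zero]
    apply mul_le_mul_of_nonneg_right _ hx0
    calc (2 : ℝ) ^ k ≤ (2 : ℝ) ^ (k.toNat : ℤ) :=
          zpow_le_zpow_right₀ (by norm_num) (Int.self_le_toNat k)
      _ = (2 : ℝ) ^ k.toNat := zpow_natCast _ _
      _ ≤ (2 : ℝ) ^ max k.toNat m := pow_le_pow_right₀ (by norm_num) (le_max_left _ _)
  · have h1 : (f.1 x : ℝ) ≤ 1 := (f.1 x).2.2
    have h2 : 1 ≤ (1 / d) * x := by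
      rw [one_div, inv_mul_eq_div, le_div_iff₀ hd0]
      linarith
    have h3 : (2 : ℝ) ^ m ≤ 2 ^ max k.toNat m :=
      pow_le_pow_right₀ (by norm_num) (le_max_right _ _)
    calc (f.1 x : ℝ) ≤ 1 := h1
      _ ≤ (1 / d) * x := h2
      _ ≤ 2 ^ max k.toNat m * x := mul_le_mul_of_nonneg_right (hm.le.trans h3) hx0

theorem exists_lip_all (S : Finset F) :
    ∃ C : ℕ, ∀ a : F, Lt S a → ∀ x : UI, (a.1 x : ℝ) ≤ 2 ^ C * (x : ℝ) := by
  classical
  choose C hC using exists_lip
  refine ⟨S.sup C + S.sup (fun s => C s⁻¹), fun a ha x => ?_⟩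
  have hx0 : (0 : ℝ) ≤ x := x.2.1
  refine (hC a x).trans (mul_le_mul_of_nonneg_right (pow_le_pow_right₀ (by norm_num) ?_) hx0)
  rcases ha with ha | ha
  · exact (Finset.le_sup (f := C) ha).trans (Nat.le_add_right _ _)
  · have := Finset.le_sup (f := fun s => C s⁻¹) ha
    simp only [inv_inv] at this
    exact this.trans (Nat.le_add_left _ _)

theorem lip_word {S : Finset F} {C : ℕ}
    (hC : ∀ a : F, Lt S a → ∀ x : UI, (a.1 x : ℝ) ≤ 2 ^ C * (x : ℝ)) {l : List F}
    (hl : ∀ a ∈ l, Lt S a) (x : UI) : (l.prod.1 x : ℝ) ≤ 2 ^ (C * l.length) * (x : ℝ) := by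
  induction l with
  | nil => simp
  | cons a l ih =>
    have h1 := ih (fun b hb => hl b (List.mem_cons_of_mem _ hb))
    rw [List.prod_cons, mul_app, List.length_cons]
    calc (a.1 (l.prod.1 x) : ℝ) ≤ 2 ^ C * (l.prod.1 x : ℝ) := hC a (hl a List.mem_cons_self) _
      _ ≤ 2 ^ C * (2 ^ (C * l.length) * x) := mul_le_mul_of_nonneg_left h1 (by positivity)
      _ = 2 ^ (C * (l.length + 1)) * x := by rw [mul_add, mul_one, pow_add]; ring

/-- The element `t`. -/
noncomputable def tt : F := ⟨t, t_isPL⟩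

/-- A bump supported on `[1/2, 7/8]`. -/
noncomputable def bb : F :=
  ⟨bump (1 / 2) (1 / 8) (by norm_num) (by norm_num) (by norm_num),
    bump_isPL _ _ _ _ _ dyadic_2 dyadic_8⟩

theorem bb_fix {x : UI} (h : (x : ℝ) ≤ 1 / 2 ∨ 7 / 8 ≤ (x : ℝ)) : bb.1 x = x := by
  apply Subtype.ext
  change uF (1 / 2) (1 / 8) x = x
  rcases h with h | h
  · exact uF_1 (by norm_num) h
  · exact uF_4 (by norm_num) (by linarith)

theorem bb_ne : bb ≠ 1 := by
  intro h
  have h1 : (bb.1 ⟨5 / 8, by norm_num, by norm_num⟩ : ℝ) = 5 / 8 := by rw [h]; rfl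
  change uF (1 / 2) (1 / 8) (5 / 8) = 5 / 8 at h1
  rw [uF_2 (by norm_num) (by norm_num) (by norm_num)] at h1
  norm_num at h1

/-- One half. -/
noncomputable def half : UI := ⟨1 / 2, by norm_num, by norm_num⟩

/-- The orbit of one half under `t`. -/
noncomputable def aa (k : ℕ) : UI := (tt ^ k).1 half

theorem tt_half : (tt.1 half : ℝ) = 7 / 8 := by
  change tF (1 / 2) = 7 / 8
  rw [tF_3 (le_refl _)]
  norm_num

theorem aa_succ (k : ℕ) : aa (k + 1) = (tt ^ k).1 (tt.1 half) := by
  unfold aa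
  rw [pow_succ]
  rfl

theorem aa_lt (k : ℕ) : aa k < aa (k + 1) := by
  rw [aa_succ]
  unfold aa
  apply (tt ^ k).1.strictMono
  change ((half : UI) : ℝ) < (tt.1 half : ℝ)
  rw [tt_half]
  change (1 / 2 : ℝ) < 7 / 8
  norm_num

theorem aa_mono : StrictMono aa := strictMono_nat_of_lt_succ aa_lt

/-- The conjugates of the bump. -/
noncomputable def ff (k : ℕ) : F := tt ^ k * bb * (tt ^ k)⁻¹

theorem ff_ne (k : ℕ) : ff k ≠ 1 := by
  intro h
  apply bb_ne
  unfold ff at h
  have : bb = (tt ^ k)⁻¹ * (tt ^ k * bb * (tt ^ k)⁻¹) * tt ^ k := by group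
  rw [this, h]
  group

theorem ff_fix {k : ℕ} {x : UI} (h : ¬ (aa k < x ∧ x < aa (k + 1))) : (ff k).1 x = x := by
  unfold ff
  rw [mul_app, mul_app]
  obtain ⟨y, rfl⟩ : ∃ y, x = (tt ^ k).1 y := ⟨((tt ^ k)⁻¹).1 x, (app_inv _ _).symm⟩
  rw [inv_app, bb_fix]
  by_contra hcon
  push Not at hcon
  apply h
  constructor
  · apply (tt ^ k).1.strictMono
    exact hcon.1
  · rw [aa_succ]
    apply (tt ^ k).1.strictMono
    change (y : ℝ) < (tt.1 half : ℝ)
    rw [tt_half]
    exact hcon.2

/-- Pigeonhole: if all but `m` of the points lie to the left of one half, then one of the first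
`m + 1` conjugates fixes all of them. -/
theorem exists_fix (m : ℕ) (y : ℕ → UI) (hy : ∀ i, m ≤ i → (y i : ℝ) ≤ 1 / 2) :
    ∃ k ≤ m, ∀ i, (ff k).1 (y i) = y i := by
  by_contra hcon
  push Not at hcon
  have h1 : ∀ k : Fin (m + 1), ∃ i : Fin m, aa k < y i ∧ y i < aa (k + 1) := by
    intro k
    obtain ⟨i, hi⟩ := hcon k (by omega)
    have h2 : aa k < y i ∧ y i < aa (k + 1) := by
      by_contra h3
      exact hi (ff_fix h3)
    refine ⟨⟨i, ?_⟩, h2⟩
    by_contra h4
    have h5 := hy i (not_lt.1 h4)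
    have h6 : half ≤ aa k := by
      have : half = aa 0 := by unfold aa; rfl
      rw [this]
      exact aa_mono.monotone (Nat.zero_le _)
    have h7 : (half : ℝ) < y i := lt_of_le_of_lt h6 h2.1
    have h8 : (half : ℝ) = 1 / 2 := rfl
    linarith
  choose f hf using h1
  have hinj : Function.Injective f := by
    intro k l hkl
    by_contra hne
    have aux : ∀ k l : Fin (m + 1), f k = f l → k < l → False := by
      intro k l h1 h2
      have h3 := (hf k).2
      have h4 := (hf l).1
      rw [h1] at h3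
      have h5 : aa (k + 1) ≤ aa l := aa_mono.monotone (by
        have : (k : ℕ) < l := h2
        omega)
      exact absurd (lt_of_lt_of_le h3 h5) (not_lt.2 h4.le)
    rcases lt_or_gt_of_ne hne with h | h
    · exact aux k l hkl h
    · exact aux l k hkl.symm h
  have := Fintype.card_le_of_injective f hinj
  simp at this

/-- No copies of Cayley balls at linear distance. -/
theorem no_copies {S : Finset F} (hS : Subgroup.closure (S : Set F) = ⊤) (K : ℕ) :
    ∃ N : ℕ, ∀ n ≥ N, ∀ v : Coset H, ball H S v n ⊆ ball H S (root H) (K * n) →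
      ¬ IsCayleyBall H S v n := by
  obtain ⟨C, hC⟩ := exists_lip_all S
  obtain ⟨lt', hlt, hltp⟩ := exists_word hS tt
  obtain ⟨lb, hlb, hlbp⟩ := exists_word hS bb
  obtain ⟨li, hli1, hli, hlip⟩ := inv_word hlt
  refine ⟨16 * lt'.length ^ 2 * (C * K + 1) + 2 * (lb.length + 2 * lt'.length) + 1,
    fun n hn v hv hcopy => ?_⟩
  obtain ⟨p, hp⟩ := hv (self_mem_ball H S v n)
  obtain ⟨l, hl1, hl2, hl3⟩ := walk_list H S p
  obtain ⟨l', hl1', hl2', hl3'⟩ := inv_word hl2
  obtain ⟨g, hg⟩ : ∃ g, g = l.prod := ⟨_, rfl⟩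
  have hvg : v = coset H g := by
    rw [hl3, hg]
    unfold root
    rw [step_coset, one_mul]
  obtain ⟨m, hm⟩ : ∃ m, m = Nat.sqrt (C * (K * n) + 1) + 1 := ⟨_, rfl⟩
  -- the points `g⁻¹ (pt i)`
  have hy : ∀ i, m ≤ i → ((g⁻¹).1 (pt i) : ℝ) ≤ 1 / 2 := by
    intro i hi
    have h1 := lip_word hC hl2' (pt i)
    rw [hl3', ← hg, hl1', hl1] at h1
    have h2 : C * p.length ≤ C * (K * n) := Nat.mul_le_mul_left _ hp
    have h3 : C * (K * n) + 1 < (i + 1) ^ 2 := by
      have h4 : C * (K * n) + 1 < (Nat.sqrt (C * (K * n) + 1) + 1) ^ 2 :=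
        Nat.lt_succ_sqrt' _
      have h5 : (Nat.sqrt (C * (K * n) + 1) + 1) ^ 2 ≤ (i + 1) ^ 2 :=
        Nat.pow_le_pow_left (by omega) 2
      omega
    have h4 : (2 : ℝ) ^ (C * p.length) * (pt i : ℝ) ≤ 1 / 2 := by
      change (2 : ℝ) ^ (C * p.length) * (1 / 2) ^ ((i + 1) ^ 2) ≤ 1 / 2
      obtain ⟨r, hr⟩ : ∃ r, (i + 1) ^ 2 = C * p.length + 1 + r :=
        ⟨(i + 1) ^ 2 - (C * p.length + 1), by omega⟩
      rw [hr, pow_add, pow_add, pow_one, one_div, inv_pow]
      have h5 : (2 : ℝ) ^ (C * p.length) ≠ 0 := by positivity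
      have h6 : (2⁻¹ : ℝ) ^ r ≤ 1 := pow_le_one₀ (by norm_num) (by norm_num)
      calc (2 : ℝ) ^ (C * p.length) * (((2 : ℝ) ^ (C * p.length))⁻¹ * 2⁻¹ * 2⁻¹ ^ r)
          = (2 : ℝ)⁻¹ * 2⁻¹ ^ r := by field_simp
        _ ≤ 2⁻¹ * 1 := mul_le_mul_of_nonneg_left h6 (by norm_num)
        _ = 2⁻¹ := mul_one _
    exact h1.trans h4
  obtain ⟨k, hkm, hk⟩ := exists_fix m (fun i => (g⁻¹).1 (pt i)) hy
  -- a short word for `ff k`
  obtain ⟨w1, hw1, hw1l, hw1p⟩ := pow_word hlt k
  obtain ⟨w2, hw2, hw2l, hw2p⟩ := pow_word hli k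
  have hword : (w1 ++ lb ++ w2).prod = ff k := by
    unfold ff
    rw [List.prod_append, List.prod_append, hw1p, hw2p, hlbp, hlip, hltp, inv_pow]
  have hlen : (w1 ++ lb ++ w2).length ≤ n := by
    rw [List.length_append, List.length_append, hw1, hw2, hli1]
    obtain ⟨q, hq⟩ : ∃ q, q = Nat.sqrt (C * (K * n) + 1) := ⟨_, rfl⟩
    have hq2 : q ^ 2 ≤ C * (K * n) + 1 := by rw [hq]; exact Nat.sqrt_le' _
    obtain ⟨a, ha⟩ : ∃ a, a = lt'.length := ⟨_, rfl⟩
    rw [← ha] at hn ⊢
    have h4 : 4 * q * a ≤ n := by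
      have h5 : (4 * q * a) ^ 2 ≤ n ^ 2 := by
        have h6 : C * (K * n) + 1 ≤ (C * K + 1) * n := by
          have : 1 ≤ n := by omega
          nlinarith
        calc (4 * q * a) ^ 2 = 16 * a ^ 2 * q ^ 2 := by ring
          _ ≤ 16 * a ^ 2 * ((C * K + 1) * n) := Nat.mul_le_mul_left _ (hq2.trans h6)
          _ = (16 * a ^ 2 * (C * K + 1)) * n := by ring
          _ ≤ n * n := Nat.mul_le_mul_right _ (by omega)
          _ = n ^ 2 := by ring
      exact (Nat.pow_le_pow_iff_left two_ne_zero).1 h5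
    have h7 : k * a ≤ (q + 1) * a := Nat.mul_le_mul_right _ (by omega)
    have h8 : (q + 1) * a = q * a + a := by ring
    have h9 : 4 * q * a = 4 * (q * a) := by ring
    omega
  have hlet : ∀ a ∈ w1 ++ lb ++ w2, Lt S a := by
    intro a ha
    rcases List.mem_append.1 ha with h | h
    · rcases List.mem_append.1 h with h | h
      · exact hw1l a h
      · exact hlb a h
    · exact hw2l a h
  have hfix : step H v (w1 ++ lb ++ w2).prod = v := by
    rw [hword, hvg, step_coset, eq_comm, coset_eq, mem_H]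
    intro i
    have h1 := hk i
    have e : (g * ff k * g⁻¹ : F).1 (pt i) = g.1 ((ff k).1 ((g⁻¹).1 (pt i))) := rfl
    rw [e, h1, app_inv]
  have := copy_free H S hcopy hlen hlet hfix
  rw [hword] at this
  exact ff_ne k this

/-- Points move close to prescribed points. -/
theorem place (Y : Finset ℝ) (hY : ∀ y ∈ Y, 0 < y ∧ y < 1) : ∀ ε : ℝ, 0 < ε →
    ∃ g : F, ∀ y ∈ Y, ∃ i : ℕ, |(g.1 (pt i) : ℝ) - y| < ε := by
  induction Y using Finset.induction_on_min with
  | empty => exact fun ε _ => ⟨1, by simp⟩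
  | insert a s ha ih =>
    intro ε hε
    have ih' := ih (fun y hy => hY y (Finset.mem_insert_of_mem hy))
    obtain ⟨ha0, ha1⟩ := hY a (Finset.mem_insert_self _ _)
    obtain ⟨δ, hδ0, hδε, hδ1, hδs⟩ : ∃ δ : ℝ, 0 < δ ∧ δ ≤ ε ∧ a + δ ≤ 1 ∧ ∀ x ∈ s, a + 2 * δ ≤ x := by
      rcases s.eq_empty_or_nonempty with rfl | hs
      · exact ⟨min ε (1 - a), lt_min hε (by linarith), min_le_left _ _, by
          have := min_le_right ε (1 - a); linarith, by simp⟩
      · have hb := ha (s.min' hs) (s.min'_mem hs)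
        refine ⟨min (min ε (1 - a)) ((s.min' hs - a) / 2), lt_min (lt_min hε (by linarith))
          (by linarith), (min_le_left _ _).trans (min_le_left _ _), ?_, ?_⟩
        · have := (min_le_left (min ε (1 - a)) ((s.min' hs - a) / 2)).trans (min_le_right ε (1 - a))
          linarith
        · intro x hx
          have h1 := min_le_right (min ε (1 - a)) ((s.min' hs - a) / 2)
          have h2 := s.min'_le x hx
          linarith
    obtain ⟨g, hg⟩ := ih' δ hδ0
    -- a dyadic `w` with `3 w` slightly larger than `a`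
    obtain ⟨w, w', hw1, hw2, -, -, hwd, -⟩ := exists_dyadic (a := a / 3) (b := (a + δ) / 3)
      (by linarith) (by linarith) (by linarith)
    have hw0 : 0 < w := by linarith
    obtain ⟨e, he⟩ : ∃ e, e = 3 * w := ⟨_, rfl⟩
    have hea : a < e := by linarith
    have hed : e < a + δ := by linarith
    let b : F := ⟨bump 0 w le_rfl hw0 (by linarith), bump_isPL _ _ _ _ _ dyadic_zero hwd⟩
    have hbapp : ∀ x : UI, (b.1 x : ℝ) = uF 0 w x := fun x => rfl
    have hbfix : ∀ x : UI, e ≤ (x : ℝ) → b.1 x = x := by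
      intro x hx
      apply Subtype.ext
      rw [hbapp]
      exact uF_4 hw0 (by linarith)
    have hbpow : ∀ (n : ℕ) (x : UI), e ≤ (x : ℝ) → (b ^ n).1 x = x := by
      intro n
      induction n with
      | zero => intro x _; rfl
      | succ n ihn =>
        intro x hx
        rw [pow_succ, mul_app, hbfix x hx, ihn x hx]
    have he0 : 0 < e := by linarith
    -- a small point
    obtain ⟨C, hC⟩ := exists_lip g
    obtain ⟨i, hi⟩ : ∃ i : ℕ, (g.1 (pt i) : ℝ) < e := by
      obtain ⟨j, hj⟩ := exists_pow_lt_of_lt_one (show (0 : ℝ) < e / 2 ^ C by positivity)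
        (show (1 / 2 : ℝ) < 1 by norm_num)
      refine ⟨j, (hC _).trans_lt ?_⟩
      have h1 : (pt j : ℝ) ≤ (1 / 2) ^ j := by
        change (1 / 2 : ℝ) ^ ((j + 1) ^ 2) ≤ (1 / 2) ^ j
        apply pow_le_pow_of_le_one (by norm_num) (by norm_num)
        nlinarith
      have h2 : (0 : ℝ) < 2 ^ C := by positivity
      calc (2 : ℝ) ^ C * (pt j : ℝ) ≤ 2 ^ C * (1 / 2) ^ j := mul_le_mul_of_nonneg_left h1 h2.le
        _ < 2 ^ C * (e / 2 ^ C) := mul_lt_mul_of_pos_left hj h2
        _ = e := by field_simp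
    obtain ⟨x0, hx0⟩ : ∃ x0, x0 = g.1 (pt i) := ⟨_, rfl⟩
    have hx0pos : (0 : ℝ) < x0 := by
      have h1 : (⟨0, by simp⟩ : UI) < pt i := by
        change (0 : ℝ) < (1 / 2) ^ ((i + 1) ^ 2)
        positivity
      have h2 := g.1.strictMono h1
      rw [map_zero'] at h2
      rw [hx0]
      exact h2
    rw [← hx0] at hi
    -- the iterates approach `e`
    obtain ⟨c, hc⟩ : ∃ c : ℝ, c = max (1 / 2) (1 - x0 / e) := ⟨_, rfl⟩
    have hc1 : c < 1 := by
      rw [hc]
      apply max_lt (by norm_num)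
      have : 0 < (x0 : ℝ) / e := div_pos hx0pos he0
      linarith
    have hc0 : 0 ≤ c := by
      rw [hc]
      exact le_max_of_le_left (by norm_num)
    have hiter : ∀ n : ℕ, (x0 : ℝ) ≤ (b ^ n).1 x0 ∧ ((b ^ n).1 x0 : ℝ) ≤ e ∧
        e - ((b ^ n).1 x0 : ℝ) ≤ c ^ n * e := by
      intro n
      induction n with
      | zero =>
        refine ⟨le_rfl, hi.le, ?_⟩
        change e - (x0 : ℝ) ≤ c ^ 0 * e
        rw [pow_zero]; linarith
      | succ n ihn =>
        obtain ⟨h1, h2, h3⟩ := ihn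
        obtain ⟨x, hx⟩ : ∃ x, x = (b ^ n).1 x0 := ⟨_, rfl⟩
        rw [← hx] at h1 h2 h3
        have h4 : ((b ^ (n + 1)).1 x0 : ℝ) = uF 0 w x := by
          rw [pow_succ', mul_app, ← hx, hbapp]
        rw [h4]
        have h5 : e - uF 0 w x ≤ c * (e - x) ∧ (x : ℝ) ≤ uF 0 w x ∧ uF 0 w x ≤ e := by
          rcases le_or_gt (x : ℝ) w with hxw | hxw
          · rw [uF_2 hw0 (by linarith) (by linarith)]
            refine ⟨?_, by linarith, by linarith⟩
            have h6 : 1 - (x0 : ℝ) / e ≤ c := by rw [hc]; exact le_max_right _ _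
            have h7 : (1 - (x0 : ℝ) / e) * (e - x) ≤ c * (e - x) :=
              mul_le_mul_of_nonneg_right h6 (by linarith)
            have h8 : (x0 : ℝ) / e * (e - x) ≤ x := by
              rw [div_mul_eq_mul_div, div_le_iff₀ he0]
              nlinarith
            nlinarith
          · rw [uF_3 hw0 (by linarith) (by linarith)]
            refine ⟨?_, by linarith, by linarith⟩
            have h6 : 1 / 2 ≤ c := by rw [hc]; exact le_max_left _ _
            have h7 : (1 / 2) * (e - x) ≤ c * (e - x) :=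
              mul_le_mul_of_nonneg_right h6 (by linarith)
            linarith
        refine ⟨by linarith [h5.2.1], h5.2.2, ?_⟩
        calc e - uF 0 w x ≤ c * (e - x) := h5.1
          _ ≤ c * (c ^ n * e) := mul_le_mul_of_nonneg_left h3 hc0
          _ = c ^ (n + 1) * e := by ring
    obtain ⟨n, hn⟩ := exists_pow_lt_of_lt_one (show (0 : ℝ) < (e - a) / e from
      div_pos (by linarith) he0) hc1
    have hn' : c ^ n * e < e - a := by
      rwa [lt_div_iff₀ he0] at hn
    refine ⟨b ^ n * g, fun y hy => ?_⟩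
    rcases Finset.mem_insert.1 hy with rfl | hy
    · refine ⟨i, ?_⟩
      rw [mul_app, ← hx0]
      obtain ⟨h1, h2, h3⟩ := hiter n
      rw [abs_lt]
      constructor <;> linarith
    · obtain ⟨j, hj⟩ := hg y hy
      refine ⟨j, ?_⟩
      have h1 := hδs y hy
      have h2 := abs_lt.1 hj
      rw [mul_app, hbpow n _ (by linarith)]
      exact hj.trans_le hδε

theorem nonConfined : NonConfined H := by
  classical
  intro P hP
  have h1 : ∀ p : F, p ≠ 1 → ∃ (y ε : ℝ), 0 < ε ∧ (0 < y ∧ y < 1) ∧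
      ∀ x : UI, |(x : ℝ) - y| < ε → p.1 x ≠ x := by
    intro p hp
    obtain ⟨x0, hx0⟩ : ∃ x0 : UI, p.1 x0 ≠ x0 := by
      by_contra hcon
      push Not at hcon
      apply hp
      apply Subtype.ext
      ext x
      exact congrArg Subtype.val (hcon x)
    have hopen : IsOpen {x : UI | p.1 x ≠ x} := isOpen_ne_fun p.1.continuous continuous_id
    obtain ⟨ε, hε, hball⟩ := Metric.isOpen_iff.1 hopen x0 hx0
    refine ⟨x0, ε, hε, ⟨?_, ?_⟩, fun x hx => hball hx⟩
    · refine lt_of_le_of_ne x0.2.1 fun h => hx0 ?_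
      have : x0 = ⟨0, by simp⟩ := Subtype.ext h.symm
      rw [this, map_zero']
    · refine lt_of_le_of_ne x0.2.2 fun h => hx0 ?_
      have : x0 = ⟨1, by simp⟩ := Subtype.ext h
      rw [this, map_one']
  choose! y ε hε hy hmove using h1
  have hne : ∀ p ∈ P, p ≠ 1 := fun p hp h => hP (h ▸ hp)
  obtain ⟨δ, hδ0, hδ⟩ : ∃ δ : ℝ, 0 < δ ∧ ∀ p ∈ P, δ ≤ ε p := by
    clear hP
    induction P using Finset.induction_on with
    | empty => exact ⟨1, one_pos, by simp⟩
    | insert a s _ ih =>
      obtain ⟨δ, h0, h1⟩ := ih (fun p hp => hne p (Finset.mem_insert_of_mem hp))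
      refine ⟨min δ (ε a), lt_min h0 (hε a (hne a (Finset.mem_insert_self _ _))), ?_⟩
      intro p hp
      rcases Finset.mem_insert.1 hp with rfl | hp
      · exact min_le_right _ _
      · exact (min_le_left _ _).trans (h1 p hp)
  obtain ⟨g, hg⟩ := place (P.image y) (by
    intro z hz
    obtain ⟨p, hp, rfl⟩ := Finset.mem_image.1 hz
    exact hy p (hne p hp)) δ hδ0
  refine ⟨g, fun p hp hmem => ?_⟩
  obtain ⟨i, hi⟩ := hg (y p) (Finset.mem_image_of_mem y hp)
  refine hmove p (hne p hp) (g.1 (pt i)) (hi.trans_le (hδ p hp)) ?_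
  have h2 := hmem i
  have e : (g⁻¹ * p * g : F).1 (pt i) = (g⁻¹).1 (p.1 (g.1 (pt i))) := rfl
  rw [e] at h2
  have h3 := congrArg g.1 h2
  rw [app_inv] at h3
  exact h3

end thompson

/-- There is a non-confined subgroup `H` of Thompson's group `F` such that, for every finite
generating set `S` of `F` and every `K`, for all but finitely many `n` the ball of radius `K n`
about the root of the Schreier graph of `H` contains no copy of the ball of radius `n` of the
Cayley graph of `F`. -/
theorem result : ∃ H : Subgroup ThompsonF, NonConfined H ∧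
    ∀ S : Finset ThompsonF, Subgroup.closure (S : Set ThompsonF) = ⊤ →
      ∀ K : ℕ, ∃ N : ℕ, ∀ n ≥ N, ¬ ∃ v : Coset H,
        ball H S v n ⊆ ball H S (root H) (K * n) ∧ IsCayleyBall H S v n := by
  refine ⟨H, nonConfined, fun S hS K => ?_⟩
  obtain ⟨N, hN⟩ := no_copies hS K
  exact ⟨N, fun n hn ⟨v, hv, hc⟩ => hN n hn v hv hc⟩

end Pool.Agent.Results.MP_f4dda6_al.NoLinearCopies
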